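import Mathlib

/-!
# Project GM: the assembly of the constant, in general form
-/

set_option autoImplicit false

namespace Pool.Agent.Y758.GM

open Filter Topology

theorem core (k : ℕ) (F G : ℕ → ℝ → ℝ) (B : ℕ → ℝ) (Z : ℝ → ℝ)
    (hFB : ∃ C : ℝ, ∀ p : ℕ, p.Prime → ∀ h : ℝ, 0 < h → h ≤ 1 →
      |F p h * Real.exp (-(k : ℝ) ^ 2 * G p h) - 1| ≤ C * (p : ℝ) ^ (-(3 / 2) : ℝ))
    (hFL : ∀ p : ℕ, p.Prime →
      Tendsto (fun h : ℝ => F p h * Real.exp (-(k : ℝ) ^ 2 * G p h)) (𝓝[>] 0) (𝓝 (B p)))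
    (hGZ : ∀ h : ℝ, 0 < h → h ≤ 1 → HasSum (fun p : Nat.Primes => G p h) (Z h))
    (hZL : Tendsto (fun h : ℝ => Z h + Real.log (4 * h) - 3 / 2) (𝓝[>] 0) (𝓝 0)) :
    (Multipliable fun p : Nat.Primes => B p) ∧
    Tendsto (fun h : ℝ => (4 * h * Real.exp (-(3 / 2))) ^ (k ^ 2) * ∏' p : Nat.Primes, F p h)
      (𝓝[>] 0) (𝓝 (∏' p : Nat.Primes, B p)) := by
  obtain ⟨C, hC⟩ := hFB
  obtain ⟨f, hf⟩ : ∃ f : ℝ → Nat.Primes → ℝ, f = fun h (p : Nat.Primes) =>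
    F (p : ℕ) h * Real.exp (-(k : ℝ) ^ 2 * G (p : ℕ) h) - 1 := ⟨_, rfl⟩
  obtain ⟨g, hg⟩ : ∃ g : Nat.Primes → ℝ, g = fun p : Nat.Primes => B (p : ℕ) - 1 := ⟨_, rfl⟩
  have hs : Summable fun p : Nat.Primes => C * ((p : ℕ) : ℝ) ^ (-(3 / 2) : ℝ) :=
    Summable.mul_left C (Nat.Primes.summable_rpow.2 (by norm_num))
  have hab : ∀ p, Tendsto (fun h => f h p) (𝓝[>] 0) (𝓝 (g p)) := by
    intro p
    rw [hf, hg]
    exact (hFL p p.2).sub_const 1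
  have h01 : ∀ᶠ h : ℝ in 𝓝[>] 0, 0 < h ∧ h ≤ 1 := by
    have := Ioc_mem_nhdsGT (show (0 : ℝ) < 1 by norm_num)
    filter_upwards [this] with h hh using hh
  have hb' : ∀ h : ℝ, 0 < h → h ≤ 1 → ∀ p : Nat.Primes,
      ‖f h p‖ ≤ C * ((p : ℕ) : ℝ) ^ (-(3 / 2) : ℝ) := by
    intro h h0 h1 p
    rw [hf]
    exact hC p p.2 h h0 h1
  have hb : ∀ᶠ h in 𝓝[>] (0 : ℝ), ∀ p : Nat.Primes,
      ‖f h p‖ ≤ C * ((p : ℕ) : ℝ) ^ (-(3 / 2) : ℝ) := h01.mono fun h hh => hb' h hh.1 hh.2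
  have key := tendsto_tprod_one_add_of_dominated_convergence hs hab hb
  have hgb : ∀ p : Nat.Primes, ‖g p‖ ≤ C * ((p : ℕ) : ℝ) ^ (-(3 / 2) : ℝ) := fun p =>
    le_of_tendsto (hab p).norm (hb.mono fun h hh => hh p)
  have hms : Multipliable fun p : Nat.Primes => 1 + g p :=
    Real.multipliable_one_add_of_summable (Summable.of_norm_bounded hs hgb)
  have e1 : (fun p : Nat.Primes => 1 + g p) = fun p : Nat.Primes => B p := by
    funext p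
    rw [hg]
    ring
  rw [e1] at hms key
  refine ⟨hms, ?_⟩
  have hexp : Tendsto (fun h : ℝ => Real.exp ((k : ℝ) ^ 2 * (Z h + Real.log (4 * h) - 3 / 2)))
      (𝓝[>] 0) (𝓝 1) := by
    have h1 := (Real.continuous_exp.tendsto _).comp (hZL.const_mul ((k : ℝ) ^ 2))
    rw [mul_zero, Real.exp_zero] at h1
    exact h1
  have hprod := hexp.mul key
  rw [one_mul] at hprod
  refine hprod.congr' (h01.mono fun h hh => ?_)
  obtain ⟨h0, h1⟩ := hh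
  have a1 : HasProd (fun p : Nat.Primes => Real.exp ((k : ℝ) ^ 2 * G p h))
      (Real.exp ((k : ℝ) ^ 2 * Z h)) := ((hGZ h h0 h1).mul_left ((k : ℝ) ^ 2)).rexp
  have a2 : HasProd (fun p : Nat.Primes => 1 + f h p) (∏' p : Nat.Primes, (1 + f h p)) :=
    (Real.multipliable_one_add_of_summable
      (Summable.of_norm_bounded hs (hb' h h0 h1))).hasProd
  have a3 := a1.mul a2
  have a4 : (fun p : Nat.Primes => Real.exp ((k : ℝ) ^ 2 * G p h) * (1 + f h p)) =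
      fun p : Nat.Primes => F p h := by
    funext p
    rw [hf]
    have h2 : Real.exp ((k : ℝ) ^ 2 * G p h) * Real.exp (-(k : ℝ) ^ 2 * G p h) = 1 := by
      rw [← Real.exp_add, neg_mul, add_neg_cancel, Real.exp_zero]
    calc Real.exp ((k : ℝ) ^ 2 * G p h) * (1 + (F p h * Real.exp (-(k : ℝ) ^ 2 * G p h) - 1))
        = F p h * (Real.exp ((k : ℝ) ^ 2 * G p h) * Real.exp (-(k : ℝ) ^ 2 * G p h)) := by ring
      _ = F p h := by rw [h2, mul_one]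
  rw [a4] at a3
  have a5 : ∏' p : Nat.Primes, F (p : ℕ) h =
      Real.exp ((k : ℝ) ^ 2 * Z h) * ∏' p : Nat.Primes, (1 + f h p) := a3.tprod_eq
  show Real.exp ((k : ℝ) ^ 2 * (Z h + Real.log (4 * h) - 3 / 2)) *
    ∏' p : Nat.Primes, (1 + f h p) =
    (4 * h * Real.exp (-(3 / 2))) ^ (k ^ 2) * ∏' p : Nat.Primes, F (p : ℕ) h
  rw [a5, ← mul_assoc]
  congr 1
  have h4 : (0 : ℝ) < 4 * h := by linarith
  have h5 : 4 * h * Real.exp (-(3 / 2)) = Real.exp (Real.log (4 * h) - 3 / 2) := by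
    rw [sub_eq_add_neg, Real.exp_add, Real.exp_log h4]
  rw [h5, ← Real.exp_nat_mul, ← Real.exp_add]
  congr 1
  push_cast
  ring

end Pool.Agent.Y758.GM
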