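import Pool.Agent.Y757.GM.Stm
import Pool.Agent.Y758.GM.CSTc

set_option autoImplicit false

namespace Pool.Agent.Y758.GM

open Pool.Agent.Y757.GM

theorem t_CST (h1 : S_FB) (h2 : S_FL) (h3 : S_GZ) (h4 : S_ZL) : S_CST := fun k hk =>
  core k (Fp k) Gp (Bp k) Zh (h1 k hk) (h2 k hk) h3 h4

end Pool.Agent.Y758.GM
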